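import Mathlib
import Pool.Agent.Helper58.FX.Defs
import Pool.Agent.Helper91.TTT.Atoms

set_option autoImplicit false
open MeasureTheory Filter Topology Helper17.LevelSets
open scoped InnerProductSpace ComplexConjugate ENNReal ComplexOrder

/-! Project FX, piece FX-11. -/

namespace Helper28.FX
open Helper58.FX

lemma ft_zero (ρ : Measure Tor) [IsProbabilityMeasure ρ] : ft ρ 0 = 1 := by
  unfold ft
  simp

/-- Fourier transforms of finite measures are positive definite -/
lemma pdz_of_measure (ρ : Measure Tor) [IsFiniteMeasure ρ] : PDZ (ft ρ) := by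
  intro s c
  have e : ∀ x : Tor, ∑ i ∈ s, ∑ j ∈ s, star (c j) * c i * (fourier (i - j) x : ℂ) =
      star (∑ j ∈ s, c j * fourier j x) * (∑ i ∈ s, c i * fourier i x) := by
    intro x
    rw [star_sum, Finset.sum_mul_sum, Finset.sum_comm]
    refine Finset.sum_congr rfl fun j _ => Finset.sum_congr rfl fun i _ => ?_
    rw [sub_eq_neg_add, fourier_add, fourier_neg, star_mul']
    have : (starRingEnd ℂ) (fourier j x) = star (fourier j x : ℂ) := rfl
    rw [this]
    ring
  have hint : ∀ i j : ℤ, Integrable (fun x : Tor => star (c j) * c i * (fourier (i - j) x : ℂ)) ρ :=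
    fun i j => Helper91.TTT.integrable_cont ρ (by fun_prop)
  have e2 : ∑ i ∈ s, ∑ j ∈ s, star (c j) * c i * ft ρ (i - j) =
      ∫ x, star (∑ j ∈ s, c j * fourier j x) * (∑ i ∈ s, c i * fourier i x) ∂ρ := by
    simp only [← e]
    rw [integral_finsetSum _ (fun i _ => integrable_finsetSum _ (fun j _ => hint i j))]
    refine Finset.sum_congr rfl fun i _ => ?_
    rw [integral_finsetSum _ (fun j _ => hint i j)]
    refine Finset.sum_congr rfl fun j _ => ?_
    rw [integral_const_mul]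
    rfl
  rw [e2]
  have e3 : ∀ x : Tor, star (∑ j ∈ s, c j * fourier j x) * (∑ i ∈ s, c i * fourier i x) =
      ((‖∑ i ∈ s, c i * fourier i x‖ ^ 2 : ℝ) : ℂ) := by
    intro x
    have := Complex.conj_mul' (∑ i ∈ s, c i * (fourier i x : ℂ))
    push_cast
    exact this
  simp only [e3]
  rw [integral_complex_ofReal]
  exact_mod_cast integral_nonneg fun x => by positivity

lemma T_eq (n : ℕ) : (T n : Tor → Tor) = fun x => (n : ℤ) • x := by
  funext x
  show n • x = (n : ℤ) • x
  rw [natCast_zsmul]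

lemma ft_mul {μ : Measure Tor} [IsProbabilityMeasure μ] {k : ℕ}
    (h : MeasurePreserving (T k) μ μ) (n : ℤ) : ft μ (k * n) = ft μ n := by
  unfold ft
  conv_rhs => rw [← h.map_eq]
  rw [integral_map h.measurable.aemeasurable (fourier n).continuous.aestronglyMeasurable]
  refine integral_congr_ae (Filter.Eventually.of_forall fun x => ?_)
  show (fourier ((k : ℤ) * n) x : ℂ) = fourier n (T k x)
  rw [T_eq, Helper91.TTT.fourier_zsmul, mul_comm]

/-- FX-11 -/
theorem pdz_ft {μ : Measure Tor} [IsProbabilityMeasure μ] (h2 : MeasurePreserving (T 2) μ μ)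
    (h3 : MeasurePreserving (T 3) μ μ) :
    PDZ (ft μ) ∧ ft μ 0 = 1 ∧ (∀ n, ft μ (2 * n) = ft μ n) ∧ (∀ n, ft μ (3 * n) = ft μ n) :=
  ⟨pdz_of_measure μ, ft_zero μ, fun n => by exact_mod_cast ft_mul h2 n,
    fun n => by exact_mod_cast ft_mul h3 n⟩

lemma mp_of_ft {ν : Measure Tor} [IsProbabilityMeasure ν] (k : ℕ)
    (h : ∀ n, ft ν ((k : ℤ) * n) = ft ν n) : MeasurePreserving (T k) ν ν := by
  refine ⟨Helper17.TranslM.measurable_T k, ?_⟩
  have h1 := Helper91.TTT.map_zsmul_eq (μ := ν) (k : ℤ) (fun n => by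
    have := h n
    rw [mul_comm] at this
    exact this)
  rw [T_eq]
  exact h1

/-- FX-11 -/
theorem exists_measure {q : ℤ → ℂ} (hq : PDZ q) (h0 : q 0 = 1) (h2 : ∀ n, q (2 * n) = q n)
    (h3 : ∀ n, q (3 * n) = q n) :
    ∃ ν : Measure Tor, IsProbabilityMeasure ν ∧ (∀ n, ft ν n = q n) ∧
      MeasurePreserving (T 2) ν ν ∧ MeasurePreserving (T 3) ν ν := by
  obtain ⟨ν, hν, hf⟩ := Helper91.TTT.herglotz hq h0
  have hf' : ∀ n, ft ν n = q n := hf
  refine ⟨ν, hν, hf', mp_of_ft 2 fun n => ?_, mp_of_ft 3 fun n => ?_⟩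
  · rw [hf', hf']; exact_mod_cast h2 n
  · rw [hf', hf']; exact_mod_cast h3 n

/-- FX-11 -/
theorem exists_square {μ : Measure Tor} [IsProbabilityMeasure μ]
    (h2 : MeasurePreserving (T 2) μ μ) (h3 : MeasurePreserving (T 3) μ μ) :
    ∃ ρ : Measure Tor, IsProbabilityMeasure ρ ∧ (∀ n, ft ρ n = ((‖ft μ n‖ ^ 2 : ℝ) : ℂ)) ∧
      MeasurePreserving (T 2) ρ ρ ∧ MeasurePreserving (T 3) ρ ρ := by
  have hmeas : Measurable (fun z : Tor × Tor => z.1 - z.2) := by fun_prop
  let ρ0 : Measure Tor := (μ.prod μ).map (fun z : Tor × Tor => z.1 - z.2)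
  haveI : IsProbabilityMeasure ρ0 := Measure.isProbabilityMeasure_map hmeas.aemeasurable
  have hft : ∀ n, ft ρ0 n = ((‖ft μ n‖ ^ 2 : ℝ) : ℂ) := by
    intro n
    have h4 : ft ρ0 n = ∫ z : Tor × Tor, (fourier n z.1 : ℂ) * (fourier (-n) z.2 : ℂ)
        ∂(μ.prod μ) := by
      unfold ft
      rw [integral_map hmeas.aemeasurable (fourier n).continuous.aestronglyMeasurable]
      refine integral_congr_ae (Filter.Eventually.of_forall fun z => ?_)
      show (fourier n (z.1 - z.2) : ℂ) = fourier n z.1 * fourier (-n) z.2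
      simp only [fourier_apply, sub_eq_add_neg, smul_add, smul_neg, AddCircle.toCircle_add, neg_smul,
        Circle.coe_mul]
    rw [h4, integral_prod_mul (f := fun x : Tor => (fourier n x : ℂ))
      (g := fun x : Tor => (fourier (-n) x : ℂ))]
    have h5 : ∫ x, (fourier (-n) x : ℂ) ∂μ = conj (ft μ n) := by
      unfold ft
      rw [← integral_conj]
      refine integral_congr_ae (Filter.Eventually.of_forall fun x => ?_)
      exact fourier_neg
    rw [h5]
    show ft μ n * conj (ft μ n) = _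
    rw [Complex.mul_conj']
    push_cast
    rfl
  have hinv : ∀ k : ℕ, (∀ n, ft μ (k * n) = ft μ n) → ∀ n, ft ρ0 (k * n) = ft ρ0 n := by
    intro k h n
    rw [hft, hft, h]
  exact ⟨ρ0, this, hft, mp_of_ft 2 (hinv 2 fun n => ft_mul h2 n),
    mp_of_ft 3 (hinv 3 fun n => ft_mul h3 n)⟩

end Helper28.FX
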